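import Pool.Agent.helper3.SP.SpecPP

/-! Module PP6 of the project sp, piece C2P: `PL_stmt → U1ii_stmt`. -/

namespace TP

open DP MeasureTheory

theorem PP6_a4_nonneg (p q : ℕ) : 0 ≤ a4 p q := measureReal_nonneg

theorem PP6_a6_nonneg (p q : ℕ) : 0 ≤ a6 p q := measureReal_nonneg

theorem PP6_rat_nonneg (p m s : ℕ) : 0 ≤ rat p m s := by
  unfold rat
  exact div_nonneg (mul_nonneg (pow_nonneg (PP6_a6_nonneg _ _) _) (PP6_a6_nonneg _ _))
    (mul_nonneg (PP6_a4_nonneg _ _) (PP6_a4_nonneg _ _))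

theorem PP6_mono {F G : Set (V → Bool)} (h : F ⊆ G) : Pr F ≤ Pr G := by
  have hP : IsProbabilityMeasure P1 := by unfold P1; infer_instance
  have h1 : P1 G ≠ ⊤ := measure_ne_top P1 G
  exact measureReal_mono h h1

theorem PP6_loc (g : ℕ) (x : V) (p : ℕ → ℕ) (m s : ℕ) (A : Set V) (J : ℕ)
    (h : ∀ j < J, Loc (YPe g x (p j) m s) A) : Loc {b | ∀ j < J, b ∉ YPe g x (p j) m s} A := by
  induction J with
  | zero =>
    have : {b : V → Bool | ∀ j < 0, b ∉ YPe g x (p j) m s} = Set.univ := by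
      ext b; simp
    rw [this]; exact Loc.univ A
  | succ J ih =>
    have h1 : {b : V → Bool | ∀ j < J + 1, b ∉ YPe g x (p j) m s} =
        {b | ∀ j < J, b ∉ YPe g x (p j) m s} ∩ (YPe g x (p J) m s)ᶜ := by
      ext b
      constructor
      · intro hb
        exact ⟨fun j hj => hb j (by omega), hb J (by omega)⟩
      · rintro ⟨h1, h2⟩ j hj
        rcases Nat.lt_succ_iff_lt_or_eq.mp hj with h3 | h3
        · exact h1 j h3
        · rw [h3]; exact h2
    rw [h1]
    have h2 := (ih (fun j hj => h j (by omega))).inter (h J (by omega)).compl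
    exact h2.mono (by simp)

theorem PP6 (hPP4 : PP4_stmt) (hPP5 : PP5_stmt) (hCHX : K.CHX_stmt) (hLQ : K.LQ_stmt)
    (hflip : Bflip_stmt) (hUI7 : UI7_stmt) (hUI8 : UI8_stmt) : PP6_stmt := by
  rintro ⟨g, k₀, hg, hPL⟩
  obtain ⟨c₁, hc₁, i₁, hCH⟩ := hCHX
  obtain ⟨C₂, k₂, hC₂, -, -, hsh, -, -⟩ := hUI8
  refine ⟨k₀ + i₁ + k₂ + 2 * g + 20, fun s hs => ?_⟩
  obtain ⟨c, hc, hPLs⟩ := hPL s (by omega)
  refine ⟨2 * C₂ ^ 2, c₁ / 2 * c, by positivity, by positivity, ?_⟩
  intro i k t m J p x ht hm htp hpj hpJ hx hB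
  set k₁ := k₀ + i₁ + k₂ + 2 * g + 20 with hk₁
  -- monotonicity of `p`
  have hmono : ∀ j j', j < j' → p j + m + 3 * s + m + k₁ + s ≤ p j' := by
    intro j j' hjj
    induction j', hjj using Nat.le_induction with
    | base => exact hpj j
    | succ n hn ih => have := hpj n; omega
  have hmono' : ∀ j j', j ≤ j' → p j ≤ p j' := by
    intro j j' h
    rcases h.lt_or_eq with h | h
    · have := hmono j j' h; omega
    · rw [h]
  have h0J := hmono' 0 J (Nat.zero_le J)
  set N := i - k with hN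
  have hN1 : p J ≤ N := by omega
  have htN : t + k₁ ≤ N := by omega
  have hj1 : ∀ j < J, t + k₁ ≤ p j ∧ p j + m + 3 * s + m + k₁ ≤ N := by
    intro j hj
    have h1 := hmono' 0 j (Nat.zero_le j)
    have h2 := hmono j J hj
    constructor <;> omega
  have hxe : Even (x.1 + x.2) := Int.even_iff.mpr hx
  have hsub := hPP4 g s hg (by omega) i N t m J p x (by omega) (by omega)
    (fun j hj => by have := hj1 j hj; constructor <;> omega) (by omega) hB
  set X : Set (V → Bool) := F4 x (t + 2) N ∩ {b | ∀ j < J, b ∉ YPe g x (p j) m s} with hX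
  have hlocY : ∀ j < J, Loc (YPe g x (p j) m s)
      (ann x (2 ^ (p j - g - 4)) (2 ^ (p j + m + 3 * s + m + 4 + g))) := by
    intro j hj
    have := hj1 j hj
    exact hPP5 g x (p j) m s (by omega) (by omega)
  have hlocX : Loc X Set.univ := by
    have h1 : Loc (F4 x (t + 2) N) Set.univ := (hLQ.1 x (t + 2) N).mono (Set.subset_univ _)
    have h2 := PP6_loc g x p m s Set.univ J (fun j hj => (hlocY j hj).mono (Set.subset_univ _))
    exact (h1.inter h2).mono (Set.subset_univ _)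
  have hfl : Pr {b | (fun v => !(b v)) ∈ X} = Pr X := hflip (Equiv.refl V) X Set.univ hlocX
  have hCHj := (hCH x (t + 2) N J (fun j => p j - g - 4)
    (fun j => p j + m + 3 * s + m + 4 + g) (fun j => YPe g x (p j) m s) (fun _ => 1 / 2)
    (fun j => c * rat (p j) m s) hxe (by omega) hlocY
    (fun j hj => by have := hj1 j hj; refine ⟨?_, ?_, ?_⟩ <;> omega)
    (fun j j' hjj hj' => by
      have h1 := hmono j j' hjj
      have h2 := hj1 j' hj'
      omega)
    (fun j _ => by norm_num)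
    (fun j hj => by
      have h1 := hj1 j hj
      exact ⟨mul_nonneg hc.le (PP6_rat_nonneg _ _ _),
        hPLs (p j) m x (by omega) (by omega) hx⟩)).2
  have hF : Pr (F4 x (t + 2) N) = a4 (t + 2) N := ((hUI7.2 x _ _ hx).1)
  have hsh' : a4 (t + 2) N ≤ C₂ ^ 2 * a4 t N := by
    have h1 := hsh t (N - 2) 2 (by omega) (by omega)
    have h2 : N - 2 + 2 = N := by omega
    rwa [h2] at h1
  have hPrX : Pr X ≤ Real.exp (-(c₁ / 2 * c * ∑ j ∈ Finset.range J, rat (p j) m s)) *
      (C₂ ^ 2 * a4 t N) := by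
    refine hCHj.trans ?_
    rw [hF]
    have h3 : ∑ j ∈ Finset.range J, c * rat (p j) m s = c * ∑ j ∈ Finset.range J, rat (p j) m s := by
      rw [Finset.mul_sum]
    rw [h3, ← mul_assoc]
    exact mul_le_mul_of_nonneg_left hsh' (Real.exp_nonneg _)
  have hPP : PPv i (fun X => (∃ v ∈ X, sd x v ≤ 2 ^ (t + 1)) ∧
      ∀ j < J, ¬ PairS X true x (p j) m s ∧ ¬ PairS X false x (p j) m s) ≤ Pr X + Pr X := by
    unfold PPv
    have h4 : {b : V → Bool | (∃ v ∈ PV i b, sd x v ≤ 2 ^ (t + 1)) ∧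
        ∀ j < J, ¬ PairS (PV i b) true x (p j) m s ∧ ¬ PairS (PV i b) false x (p j) m s} ⊆
        X ∪ {b | (fun v => !(b v)) ∈ X} := by
      intro b hb
      exact hsub ⟨hb.1, fun j hj => (hb.2 j hj).1⟩
    have h5 : Pr (X ∪ {b | (fun v => !(b v)) ∈ X}) ≤ Pr X + Pr {b | (fun v => !(b v)) ∈ X} :=
      measureReal_union_le _ _
    rw [hfl] at h5
    exact (PP6_mono h4).trans h5
  calc _ ≤ Pr X + Pr X := hPP
    _ ≤ 2 * (Real.exp (-(c₁ / 2 * c * ∑ j ∈ Finset.range J, rat (p j) m s)) *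
      (C₂ ^ 2 * a4 t N)) := by linarith
    _ = _ := by ring


end TP
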