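import Pool.Agent.helper2.SP.SpecTA
import Pool.Agent.helper49.DP.BSYM
import Pool.Agent.helper64.TP.Basic

namespace TP.TA

open DP MeasureTheory

open Classical in
/-- flip the coins in `S` -/
noncomputable def TA14_T (S : Set V) (b : V → Bool) : V → Bool :=
  fun v => if v ∈ S then !(b v) else b v

theorem TA14_T_T (S : Set V) (b : V → Bool) : TA14_T S (TA14_T S b) = b := by
  funext v
  unfold TA14_T
  by_cases h : v ∈ S
  · simp [h]
  · simp [h]

theorem TA14_meas (S : Set V) : Measurable (TA14_T S) := by
  refine measurable_pi_lambda _ fun v => ?_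
  unfold TA14_T
  by_cases h : v ∈ S
  · simp only [h, if_true]
    exact (measurable_of_finite (fun a : Bool => !a)).comp (measurable_pi_apply v)
  · simp only [h, if_false]
    exact measurable_pi_apply v

/-- the flip as a measurable equivalence -/
noncomputable def TA14_E (S : Set V) : (V → Bool) ≃ᵐ (V → Bool) where
  toFun := TA14_T S
  invFun := TA14_T S
  left_inv := TA14_T_T S
  right_inv := TA14_T_T S
  measurable_toFun := TA14_meas S
  measurable_invFun := TA14_meas S

theorem TA14_map (S : Set V) : P1.map (TA14_E S) = P1 := by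
  classical
  unfold P1
  have h2 := Measure.infinitePi_map_pi (fun _ : V => (PMF.uniformOfFintype Bool).toMeasure)
    (f := fun v a => if v ∈ S then !a else a) (fun _ => measurable_of_finite _)
  have h3 : ∀ v : V, ((PMF.uniformOfFintype Bool).toMeasure).map
      (fun a => if v ∈ S then !a else a) = (PMF.uniformOfFintype Bool).toMeasure := by
    intro v
    by_cases h : v ∈ S
    · simp only [h, if_true]
      exact BSYM_not
    · simp only [h, if_false]
      exact Measure.map_id
  simp only [h3] at h2
  have h4 : (fun (x : V → Bool) v => if v ∈ S then !(x v) else x v) = ⇑(TA14_E S) := by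
    funext x v
    show _ = TA14_T S x v
    unfold TA14_T
    congr
  rw [h4] at h2
  exact h2

theorem TA14_pre (S : Set V) (E : Set (V → Bool)) : P1.real (TA14_T S ⁻¹' E) = P1.real E := by
  have h1 : P1.real E = (P1.map (TA14_E S)).real E := by rw [TA14_map]
  rw [h1, measureReal_def, measureReal_def, MeasurableEquiv.map_apply]
  rfl

theorem TA14_FS (x : V) (m n : ℕ) (K : Set V) (v : V) :
    v ∈ FS x m n K ↔ br v ∈ FS x m n K := by
  unfold FS
  simp only [Set.mem_ofPred_eq, br_br]

theorem TA14_col (x : V) (m n : ℕ) (K : Set V) (b : V → Bool) :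
    col (TA14_T (FS x m n K) b) = Th x m n K (col b) := by
  funext v
  unfold col TA14_T Th
  by_cases h : v ∈ FS x m n K
  · rw [if_pos h, if_pos ((TA14_FS x m n K v).1 h)]
  · rw [if_neg h, if_neg (fun h' => h ((TA14_FS x m n K v).2 h'))]

theorem TA14 (h2 : TA2_stmt) : TA14_stmt := by
  intro x m n K G _
  unfold Pr
  rw [← TA14_pre (FS x m n K) (Ev fun c => WC c x m n K ∧ G c)]
  congr 1
  ext b
  have hb : BC (col b) := by
    intro v
    unfold col
    rw [br_br]
  obtain ⟨h3, h4, h5⟩ := h2.1 (col b) x m n K hb
  have h6 : WC (Th x m n K (col b)) x m n K ↔ WC (col b) x m n K := by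
    constructor
    · intro h7
      have h8 := ((h2.1 (Th x m n K (col b)) x m n K h3).2.2 h7).1
      rwa [h4] at h8
    · intro h7
      exact (h5 h7).1
  show (WC (col b) x m n K ∧ G (Th x m n K (col b))) ↔
    (WC (col (TA14_T (FS x m n K) b)) x m n K ∧ G (col (TA14_T (FS x m n K) b)))
  rw [TA14_col, h6]

end TP.TA
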