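import Pool.Agent.helper31.SP.SpecTL

/-!
# Project sp, module TL7 (helper21): scales
-/

set_option autoImplicit false

namespace TP

open DP MeasureTheory

theorem TL7_qa_four (ρ : V → ℝ) (x : V) (m n : ℕ) :
    qa ρ 4 x m n = Q ρ (Ev fun c => four c x m n) (Ev fun c => four c x m n) := by
  unfold qa
  have h : (fun c : V → Bool => ar 4 c x m n) = fun c => four c x m n := by
    funext c
    unfold ar
    rw [if_pos rfl]
  rw [h]

theorem TL7 (hDEC : DEC_stmt) (hGRO : GRO_stmt) (hQMX : QMX_stmt) (hUI5 : UI5_stmt)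
    (hUI8 : UI8_stmt) (hBmono : Bmono_stmt) (hBmarg : Bmarg_stmt) : TL7_stmt := by
  obtain ⟨kD, hD⟩ := hDEC
  obtain ⟨kG, hG⟩ := hGRO
  obtain ⟨CQ, hCQ, iQ, hQ⟩ := hQMX
  obtain ⟨C8, k8, hC8, -, -, -, -, hpos⟩ := hUI8
  refine ⟨max (max kD kG) (max iQ k8), fun m₀ hm => ?_⟩
  have hmD : kD ≤ m₀ := ((le_max_left _ _).trans (le_max_left _ _)).trans hm
  have hmG : kG ≤ m₀ := ((le_max_right _ _).trans (le_max_left _ _)).trans hm
  have hmQ : iQ ≤ m₀ := ((le_max_left _ _).trans (le_max_right _ _)).trans hm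
  have hm8 : k8 ≤ m₀ := ((le_max_right _ _).trans (le_max_right _ _)).trans hm
  obtain ⟨c₁, c₂, CD, i₀, hc₁, hc₂, hCD, hi₀, hD⟩ := hD m₀ hmD
  obtain ⟨c, a, hc, ha, hG⟩ := hG m₀ hmG
  have hal : ∀ p, al m₀ p = a4 m₀ p := fun p => rfl
  have ha4 : ∀ p, m₀ < p → 0 < a4 m₀ p := fun p hp => hpos m₀ p hm8 hp
  set A : ℝ := 4 ^ (m₀ + 1) * al m₀ (m₀ + 1) with hA
  have hA0 : 0 < A := by
    rw [hA, hal]
    have := ha4 (m₀ + 1) (Nat.lt_succ_self _)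
    positivity
  have hlog : 0 < Real.log 2 := Real.log_pos (by norm_num)
  set B : ℝ := 2 * c₁ / (c * A * a * Real.log 2) with hB
  have hB0 : 0 < B := by positivity
  have hgrow : ∀ p, m₀ + 1 + ⌈B⌉₊ ≤ p → 2 * c₁ ≤ 4 ^ p * a4 m₀ p := by
    intro p hp
    have h1 := hG (m₀ + 1) p (Nat.lt_succ_self _) (by omega)
    rw [← hA, hal] at h1
    refine le_trans ?_ h1
    have h2 : B ≤ (p : ℝ) - ((m₀ + 1 : ℕ) : ℝ) := by
      have h3 : B ≤ (⌈B⌉₊ : ℝ) := Nat.le_ceil B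
      have h4 : ((m₀ + 1 : ℕ) : ℝ) + (⌈B⌉₊ : ℝ) ≤ (p : ℝ) := by exact_mod_cast hp
      linarith
    have h5 : (2 : ℝ) ^ (a * ((p : ℝ) - ((m₀ + 1 : ℕ) : ℝ))) ≥ a * B * Real.log 2 := by
      rw [Real.rpow_def_of_pos (by norm_num)]
      have h6 := Real.add_one_le_exp (Real.log 2 * (a * ((p : ℝ) - ((m₀ + 1 : ℕ) : ℝ))))
      have h7 : a * B * Real.log 2 ≤ Real.log 2 * (a * ((p : ℝ) - ((m₀ + 1 : ℕ) : ℝ))) := by
        have := mul_le_mul_of_nonneg_left h2 (mul_pos hlog ha).le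
        linarith
      linarith
    have h8 : c * (a * B * Real.log 2) * A = 2 * c₁ := by
      rw [hB]
      field_simp
    calc 2 * c₁ = c * (a * B * Real.log 2) * A := h8.symm
      _ ≤ c * (2 : ℝ) ^ (a * ((p : ℝ) - ((m₀ + 1 : ℕ) : ℝ))) * A := by
          apply mul_le_mul_of_nonneg_right _ hA0.le
          exact mul_le_mul_of_nonneg_left h5 hc.le
  refine ⟨c₁, c₂, CQ * CD, max i₀ (m₀ + 1 + ⌈B⌉₊), hc₁, hc₂, by positivity,
    lt_of_lt_of_le hi₀ (le_max_left _ _), ?_, ?_⟩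
  · intro p hp
    have hp1 : m₀ + 1 + ⌈B⌉₊ ≤ p := (le_max_right _ _).trans hp
    have h1 := ha4 p (by omega)
    have h2 := hgrow p hp1
    have h3 : 0 < (4 : ℝ) ^ p * a4 m₀ p := by positivity
    refine ⟨h1, div_pos hc₁ h3, ?_⟩
    unfold sc
    rw [div_le_iff₀ h3]
    linarith
  · intro p q hp hpq
    have hp0 : i₀ ≤ p := (le_max_left _ _).trans hp
    have hp1 : m₀ + 1 + ⌈B⌉₊ ≤ p := (le_max_right _ _).trans hp
    have hmp : m₀ < p := by omega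
    have h1 := ha4 p hmp
    have h2 := hgrow p hp1
    have h3 : 0 < (4 : ℝ) ^ p * a4 m₀ p := by positivity
    have hs0 : 0 < sc c₁ m₀ p := div_pos hc₁ h3
    have hs1 : sc c₁ m₀ p ≤ 1 := by
      unfold sc
      rw [div_le_iff₀ h3]
      linarith
    have hct : c₁ ≤ sc c₁ m₀ p * (4 ^ p * al m₀ p) := by
      rw [hal]
      unfold sc
      rw [div_mul_cancel₀ _ h3.ne']
    have hprof : Profile (fun _ : V => sc c₁ m₀ p) := fun _ => ⟨hs0.le, hs1⟩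
    have hev : Even ((0 : V).1 + (0 : V).2) := by simp
    have h4 := hD (sc c₁ m₀ p) p p q hs0 hs1 hp0 hct le_rfl hpq
    have h5 := (hQ 4 (fun _ => sc c₁ m₀ p) 0 m₀ p 0 q (Or.inr rfl) hprof hev hmQ hmp
      (by omega)).2 hpq
    have h6 : qa (fun _ => sc c₁ m₀ p) 4 0 (2 ^ m₀) (2 ^ p) ≤ a4 m₀ p := by
      rw [TL7_qa_four]
      have h7 := hBmono (fun _ => sc c₁ m₀ p) (Ev fun c => four c 0 (2 ^ m₀) (2 ^ p))
        (Ev fun c => four c 0 (2 ^ m₀) (2 ^ p)) (Ev fun c => four c 0 (2 ^ m₀) (2 ^ p)) Set.univ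
        (le_refl _) (Set.subset_univ _)
      rw [hBmarg (fun _ => sc c₁ m₀ p) _ _ (hUI5 0 (2 ^ m₀) (2 ^ p)).1] at h7
      exact h7
    have h8 : 0 ≤ qa (fun _ => sc c₁ m₀ p) 4 0 (2 ^ p) (2 ^ q) := measureReal_nonneg
    calc qa (fun _ => sc c₁ m₀ p) 4 0 (2 ^ m₀) (2 ^ q)
        ≤ CQ * (qa (fun _ => sc c₁ m₀ p) 4 0 (2 ^ m₀) (2 ^ p) *
          qa (fun _ => sc c₁ m₀ p) 4 0 (2 ^ p) (2 ^ q)) := h5
      _ ≤ CQ * (a4 m₀ p * (CD * (2 : ℝ) ^ (-((2 + c₂) * ((q : ℝ) - p))))) := by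
          apply mul_le_mul_of_nonneg_left _ (by linarith)
          exact mul_le_mul h6 h4 h8 h1.le
      _ = CQ * CD * (a4 m₀ p * (2 : ℝ) ^ (-((2 + c₂) * ((q : ℝ) - p)))) := by ring

end TP
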